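import Pool.Agent.H746R2.AA.Hyper

/-!
# Strengthened Aaronson-Ambainis inequality for locally Sidon supports
-/

set_option autoImplicit false
set_option linter.unusedSectionVars false

namespace Pool.Agent.H161R5.AA

open Finset Polynomial Pool.Agent.H722R2.AA Pool.Agent.H746R2.AA

variable {ι : Type*} [Fintype ι] [DecidableEq ι]

lemma Ex_ml_sq (p : Finset ι → ℝ) : Ex (fun x => ml p (sg x) ^ 2) = ∑ S, p S ^ 2 := by
  unfold Ex
  rw [sum_ml_sq, mul_div_cancel_left₀ _ pow_pos'.ne']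

lemma four_eq (p : Finset ι → ℝ) :
    Ex (fun x => ml p (sg x) ^ 4) = ∑ S₁, ∑ S₂, ∑ S₃, ∑ S₄,
      if symmDiff S₁ S₂ = symmDiff S₃ S₄ then p S₁ * p S₂ * p S₃ * p S₄ else 0 := by
  have e : ∀ x : ι → ℤˣ, ml p (sg x) ^ 4 = ∑ S₁, ∑ S₂, ∑ S₃, ∑ S₄,
      (p S₁ * p S₂ * p S₃ * p S₄) *
        ((∏ i ∈ symmDiff S₁ S₂, sg x i) * ∏ i ∈ symmDiff S₃ S₄, sg x i) := by
    intro x
    simp_rw [← prod_sg_mul]
    have h1 : ∀ S₁ S₂ S₃ S₄ : Finset ι, (p S₁ * p S₂ * p S₃ * p S₄) *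
        (((∏ i ∈ S₁, sg x i) * ∏ i ∈ S₂, sg x i) * ((∏ i ∈ S₃, sg x i) * ∏ i ∈ S₄, sg x i))
        = (p S₁ * ∏ i ∈ S₁, sg x i) * ((p S₂ * ∏ i ∈ S₂, sg x i) *
          ((p S₃ * ∏ i ∈ S₃, sg x i) * (p S₄ * ∏ i ∈ S₄, sg x i))) := by
      intros; ring
    simp_rw [h1, ← Finset.mul_sum, ← Finset.sum_mul]
    unfold ml
    ring
  rw [Ex_congr e, Ex_sum]
  refine Finset.sum_congr rfl fun S₁ _ => ?_
  rw [Ex_sum]
  refine Finset.sum_congr rfl fun S₂ _ => ?_
  rw [Ex_sum]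
  refine Finset.sum_congr rfl fun S₃ _ => ?_
  rw [Ex_sum]
  refine Finset.sum_congr rfl fun S₄ _ => ?_
  rw [Ex_mul_left, Ex_chi_mul]
  split_ifs <;> simp

/-- Fourth moments for Sidon supports. -/
lemma sidon_four (p : Finset ι → ℝ)
    (h : ∀ S₁ S₂ S₃ S₄, p S₁ ≠ 0 → p S₂ ≠ 0 → p S₃ ≠ 0 → p S₄ ≠ 0 →
      S₁ ≠ S₂ → S₁ ≠ S₃ → S₁ ≠ S₄ → S₂ ≠ S₃ → S₂ ≠ S₄ → S₃ ≠ S₄ →
      symmDiff S₁ S₂ ≠ symmDiff S₃ S₄) :
    Ex (fun x => ml p (sg x) ^ 4) ≤ 3 * Ex (fun x => ml p (sg x) ^ 2) ^ 2 := by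
  rw [four_eq, Ex_ml_sq]
  have key : ∀ S₁ S₂ S₃ S₄ : Finset ι,
      (if symmDiff S₁ S₂ = symmDiff S₃ S₄ then p S₁ * p S₂ * p S₃ * p S₄ else 0) ≤
        (if S₁ = S₂ then (if S₃ = S₄ then p S₁ ^ 2 * p S₃ ^ 2 else 0) else 0)
        + (if S₁ = S₃ then (if S₂ = S₄ then p S₁ ^ 2 * p S₂ ^ 2 else 0) else 0)
        + (if S₁ = S₄ then (if S₂ = S₃ then p S₁ ^ 2 * p S₂ ^ 2 else 0) else 0) := by
    intro S₁ S₂ S₃ S₄
    have n1 : (0 : ℝ) ≤ (if S₁ = S₂ then (if S₃ = S₄ then p S₁ ^ 2 * p S₃ ^ 2 else 0) else 0) := by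
      split_ifs <;> positivity
    have n2 : (0 : ℝ) ≤ (if S₁ = S₃ then (if S₂ = S₄ then p S₁ ^ 2 * p S₂ ^ 2 else 0) else 0) := by
      split_ifs <;> positivity
    have n3 : (0 : ℝ) ≤ (if S₁ = S₄ then (if S₂ = S₃ then p S₁ ^ 2 * p S₂ ^ 2 else 0) else 0) := by
      split_ifs <;> positivity
    by_cases hs : symmDiff S₁ S₂ = symmDiff S₃ S₄
    · rw [if_pos hs]
      by_cases h12 : S₁ = S₂
      · have h34 : S₃ = S₄ := by
          rw [h12, symmDiff_self] at hs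
          exact (symmDiff_eq_bot.1 hs.symm)
        have : p S₁ * p S₂ * p S₃ * p S₄ = p S₁ ^ 2 * p S₃ ^ 2 := by
          rw [← h12, ← h34]; ring
        rw [if_pos h12, if_pos h34, this]
        linarith
      · by_cases h13 : S₁ = S₃
        · have h24 : S₂ = S₄ := by
            rw [h13] at hs
            exact symmDiff_right_injective S₃ hs
          have : p S₁ * p S₂ * p S₃ * p S₄ = p S₁ ^ 2 * p S₂ ^ 2 := by
            rw [← h13, ← h24]; ring
          rw [if_pos h13, if_pos h24, this]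
          linarith
        · by_cases h14 : S₁ = S₄
          · have h23 : S₂ = S₃ := by
              rw [h14, symmDiff_comm S₃ S₄] at hs
              exact symmDiff_right_injective S₄ hs
            have : p S₁ * p S₂ * p S₃ * p S₄ = p S₁ ^ 2 * p S₂ ^ 2 := by
              rw [← h14, ← h23]; ring
            rw [if_pos h14, if_pos h23, this]
            linarith
          · -- four distinct sets
            have h23 : S₂ ≠ S₃ := by
              intro hc
              apply h14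
              rw [hc, symmDiff_comm] at hs
              exact symmDiff_right_injective S₃ hs
            have h24 : S₂ ≠ S₄ := by
              intro hc
              apply h13
              rw [hc] at hs
              exact symmDiff_left_injective S₄ hs
            have h34 : S₃ ≠ S₄ := by
              intro hc
              apply h12
              rw [hc, symmDiff_self] at hs
              exact symmDiff_eq_bot.1 hs
            have h0 : p S₁ * p S₂ * p S₃ * p S₄ = 0 := by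
              by_contra hne
              have hp4 : p S₄ ≠ 0 := fun hz => hne (by rw [hz, mul_zero])
              have hp3 : p S₃ ≠ 0 := fun hz => hne (by rw [hz]; ring)
              have hp2 : p S₂ ≠ 0 := fun hz => hne (by rw [hz]; ring)
              have hp1 : p S₁ ≠ 0 := fun hz => hne (by rw [hz]; ring)
              exact h S₁ S₂ S₃ S₄ hp1 hp2 hp3 hp4 h12 h13 h14 h23 h24 h34 hs
            rw [h0]
            linarith
    · rw [if_neg hs]
      linarith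
  refine (Finset.sum_le_sum fun S₁ _ => Finset.sum_le_sum fun S₂ _ =>
    Finset.sum_le_sum fun S₃ _ => Finset.sum_le_sum fun S₄ _ => key S₁ S₂ S₃ S₄).trans ?_
  simp only [Finset.sum_add_distrib]
  have e1 : ∑ S₁ : Finset ι, ∑ S₂ : Finset ι, ∑ S₃ : Finset ι, ∑ S₄ : Finset ι,
      (if S₁ = S₂ then (if S₃ = S₄ then p S₁ ^ 2 * p S₃ ^ 2 else 0) else 0)
      = (∑ S, p S ^ 2) ^ 2 := by
    rw [sq, Finset.sum_mul_sum]
    refine Finset.sum_congr rfl fun S₁ _ => ?_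
    rw [Finset.sum_eq_single S₁]
    · simp
    · intro b _ hb
      simp [hb.symm]
    · simp
  have e2 : ∑ S₁ : Finset ι, ∑ S₂ : Finset ι, ∑ S₃ : Finset ι, ∑ S₄ : Finset ι,
      (if S₁ = S₃ then (if S₂ = S₄ then p S₁ ^ 2 * p S₂ ^ 2 else 0) else 0)
      = (∑ S, p S ^ 2) ^ 2 := by
    rw [sq, Finset.sum_mul_sum]
    refine Finset.sum_congr rfl fun S₁ _ => Finset.sum_congr rfl fun S₂ _ => ?_
    rw [Finset.sum_eq_single S₁]
    · simp
    · intro b _ hb
      simp [hb.symm]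
    · simp
  have e3 : ∑ S₁ : Finset ι, ∑ S₂ : Finset ι, ∑ S₃ : Finset ι, ∑ S₄ : Finset ι,
      (if S₁ = S₄ then (if S₂ = S₃ then p S₁ ^ 2 * p S₂ ^ 2 else 0) else 0)
      = (∑ S, p S ^ 2) ^ 2 := by
    rw [sq, Finset.sum_mul_sum]
    refine Finset.sum_congr rfl fun S₁ _ => Finset.sum_congr rfl fun S₂ _ => ?_
    rw [Finset.sum_eq_single S₂]
    · rw [Finset.sum_eq_single S₁]
      · simp
      · intro b _ hb
        simp [hb.symm]
      · simp
    · intro b _ hb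
      refine Finset.sum_eq_zero fun c _ => ?_
      simp [hb.symm]
    · simp
  rw [e1, e2, e3]
  linarith

/-- Fourth moments for unions of classes. -/
lemma col_four (m r : ℕ) (P : Finset ι → ℝ) (col : Finset ι → Fin (m + 1))
    (h0 : ∀ S, P S ≠ 0 → col S = 0 → S.card ≤ r)
    (hs : ∀ S₁ S₂ S₃ S₄, P S₁ ≠ 0 → P S₂ ≠ 0 → P S₃ ≠ 0 → P S₄ ≠ 0 →
      col S₁ ≠ 0 → col S₂ = col S₁ → col S₃ = col S₁ → col S₄ = col S₁ →
      S₁ ≠ S₂ → S₁ ≠ S₃ → S₁ ≠ S₄ → S₂ ≠ S₃ → S₂ ≠ S₄ → S₃ ≠ S₄ →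
      symmDiff S₁ S₂ ≠ symmDiff S₃ S₄) :
    Ex (fun x => ml P (sg x) ^ 4) ≤ (3 ^ r + 2 * m) ^ 2 * Ex (fun x => ml P (sg x) ^ 2) ^ 2 := by
  classical
  let p : Fin (m + 1) → Finset ι → ℝ := fun j S => if col S = j then P S else 0
  let w : Fin (m + 1) → ℝ := fun j => if j = 0 then 3 ^ r else 2
  let a : Fin (m + 1) → ℝ := fun j => ∑ S, p j S ^ 2
  have hw : ∀ j, 0 < w j := by
    intro j
    simp only [w]
    split_ifs <;> positivity
  have hwsum : ∑ j, w j = 3 ^ r + 2 * m := by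
    rw [Fin.sum_univ_succ]
    simp [w]
    ring
  have ha0 : ∀ j, 0 ≤ a j := fun j => Finset.sum_nonneg fun S _ => sq_nonneg _
  have hml : ∀ x : ι → ℤˣ, ml P (sg x) = ∑ j, ml (p j) (sg x) := by
    intro x
    unfold ml
    rw [Finset.sum_comm]
    refine Finset.sum_congr rfl fun S _ => ?_
    rw [← Finset.sum_mul]
    congr 1
    simp [p]
  have hA : ∑ j, a j = ∑ S, P S ^ 2 := by
    simp only [a]
    rw [Finset.sum_comm]
    refine Finset.sum_congr rfl fun S _ => ?_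
    simp only [p]
    rw [Finset.sum_eq_single (col S)]
    · simp
    · intro b _ hb
      simp [hb.symm]
    · simp
  have h4 : ∀ j, Ex (fun x => ml (p j) (sg x) ^ 4) ≤ w j ^ 2 * a j ^ 2 := by
    intro j
    by_cases hj : j = 0
    · have := bonami r (p j) (fun S hS => by
        simp only [p]
        split_ifs with hc
        · by_contra hne
          exact absurd (h0 S hne (hc.trans hj)) (not_le.2 hS)
        · rfl)
      rw [Ex_ml_sq] at this
      simp only [w, if_pos hj, a]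
      rwa [← pow_mul, mul_comm r 2, pow_mul, show (3 : ℝ) ^ 2 = 9 by norm_num]
    · have := sidon_four (p j) (by
        intro S₁ S₂ S₃ S₄ h1 h2 h3 h4
        have c1 : col S₁ = j := by
          by_contra hc; exact h1 (by simp [p, hc])
        have c2 : col S₂ = j := by
          by_contra hc; exact h2 (by simp [p, hc])
        have c3 : col S₃ = j := by
          by_contra hc; exact h3 (by simp [p, hc])
        have c4 : col S₄ = j := by
          by_contra hc; exact h4 (by simp [p, hc])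
        simp only [p, c1, c2, c3, c4, if_true] at h1 h2 h3 h4
        exact hs S₁ S₂ S₃ S₄ h1 h2 h3 h4 (by rw [c1]; exact hj) (c2.trans c1.symm)
          (c3.trans c1.symm) (c4.trans c1.symm))
      rw [Ex_ml_sq] at this
      simp only [w, if_neg hj, a]
      refine this.trans ?_
      have : (0 : ℝ) ≤ (∑ S, p j S ^ 2) ^ 2 := sq_nonneg _
      nlinarith
  -- the weighted Cauchy-Schwarz inequalities
  let v : Fin (m + 1) → (ι → ℤˣ) → ℝ := fun j x => ml (p j) (sg x) / Real.sqrt (a j)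
  have huv : ∀ j x, ml (p j) (sg x) = Real.sqrt (a j) * v j x := by
    intro j x
    simp only [v]
    rcases (ha0 j).eq_or_lt with h | h
    · have hz : ∀ S, p j S = 0 := by
        intro S
        have := (Finset.sum_eq_zero_iff_of_nonneg (fun S _ => sq_nonneg (p j S))).1 h.symm S
          (Finset.mem_univ S)
        exact pow_eq_zero_iff (two_ne_zero) |>.1 this
      have : ml (p j) (sg x) = 0 := by
        unfold ml
        exact Finset.sum_eq_zero fun S _ => by rw [hz S, zero_mul]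
      rw [this]; simp
    · rw [mul_div_cancel₀ _ (Real.sqrt_pos.2 h).ne']
  have hv4 : ∀ j, Ex (fun x => v j x ^ 4) ≤ w j ^ 2 := by
    intro j
    rcases (ha0 j).eq_or_lt with h | h
    · have : ∀ x, v j x ^ 4 = 0 := by
        intro x
        simp only [v]
        rw [← h]; simp
      rw [Ex_congr this, Ex_const]
      positivity
    · have e1 : ∀ x, v j x ^ 4 = ml (p j) (sg x) ^ 4 * (a j ^ 2)⁻¹ := by
        intro x
        simp only [v]
        rw [div_pow, div_eq_mul_inv]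
        congr 2
        calc Real.sqrt (a j) ^ 4 = (Real.sqrt (a j) ^ 2) ^ 2 := by ring
          _ = a j ^ 2 := by rw [Real.sq_sqrt (ha0 j)]
      rw [Ex_congr e1, Ex_mul_right, ← div_eq_mul_inv, div_le_iff₀ (by positivity)]
      exact h4 j
  have hpt : ∀ x, ml P (sg x) ^ 4 ≤
      ((∑ S, P S ^ 2) ^ 2 * (∑ j, w j)) * ∑ j, v j x ^ 4 / w j := by
    intro x
    have c1 : (ml P (sg x)) ^ 2 ≤ (∑ S, P S ^ 2) * ∑ j, v j x ^ 2 := by
      rw [hml x, Finset.sum_congr rfl (fun j _ => huv j x), ← hA]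
      refine (Finset.sum_mul_sq_le_sq_mul_sq _ _ _).trans_eq ?_
      congr 1
      exact Finset.sum_congr rfl fun j _ => Real.sq_sqrt (ha0 j)
    have c2 : (∑ j, v j x ^ 2) ^ 2 ≤ (∑ j, w j) * ∑ j, v j x ^ 4 / w j := by
      have := Finset.sum_mul_sq_le_sq_mul_sq Finset.univ (fun j => Real.sqrt (w j))
        (fun j => v j x ^ 2 / Real.sqrt (w j))
      have e1 : ∀ j, Real.sqrt (w j) * (v j x ^ 2 / Real.sqrt (w j)) = v j x ^ 2 := by
        intro j
        rw [mul_div_cancel₀ _ (Real.sqrt_pos.2 (hw j)).ne']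
      have e2 : ∀ j, Real.sqrt (w j) ^ 2 = w j := fun j => Real.sq_sqrt (hw j).le
      have e3 : ∀ j, (v j x ^ 2 / Real.sqrt (w j)) ^ 2 = v j x ^ 4 / w j := by
        intro j
        rw [div_pow, e2]; ring
      simp only [e1, e2, e3] at this
      exact this
    calc ml P (sg x) ^ 4 = ((ml P (sg x)) ^ 2) ^ 2 := by ring
      _ ≤ ((∑ S, P S ^ 2) * ∑ j, v j x ^ 2) ^ 2 := pow_le_pow_left₀ (sq_nonneg _) c1 2
      _ = (∑ S, P S ^ 2) ^ 2 * (∑ j, v j x ^ 2) ^ 2 := by ring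
      _ ≤ (∑ S, P S ^ 2) ^ 2 * ((∑ j, w j) * ∑ j, v j x ^ 4 / w j) :=
          mul_le_mul_of_nonneg_left c2 (sq_nonneg _)
      _ = _ := by ring
  have hwn : 0 ≤ ∑ j, w j := Finset.sum_nonneg fun j _ => (hw j).le
  refine (Ex_mono hpt).trans ?_
  rw [Ex_mul_left, Ex_sum, Ex_ml_sq]
  have hlast : ∑ j, Ex (fun x => v j x ^ 4 / w j) ≤ ∑ j, w j := by
    refine Finset.sum_le_sum fun j _ => ?_
    simp_rw [div_eq_mul_inv]
    rw [Ex_mul_right, ← div_eq_mul_inv, div_le_iff₀ (hw j), ← sq]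
    exact hv4 j
  calc ((∑ S, P S ^ 2) ^ 2 * ∑ j, w j) * ∑ j, Ex (fun x => v j x ^ 4 / w j)
      ≤ ((∑ S, P S ^ 2) ^ 2 * ∑ j, w j) * ∑ j, w j :=
        mul_le_mul_of_nonneg_left hlast (mul_nonneg (sq_nonneg _) hwn)
    _ = (3 ^ r + 2 * m) ^ 2 * (∑ S, P S ^ 2) ^ 2 := by rw [hwsum]; ring

/-- `L²` against `L¹`. -/
lemma l2_le_l1_of_four (R : (ι → ℤˣ) → ℝ) (K : ℝ) (hK : 0 ≤ K)
    (h4 : Ex (fun x => R x ^ 4) ≤ K ^ 2 * Ex (fun x => R x ^ 2) ^ 2) :
    Real.sqrt (Ex (fun x => R x ^ 2)) ≤ K * Ex (fun x => |R x|) := by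
  set b := Ex (fun x => R x ^ 2) with hb
  set a := Ex (fun x => |R x|) with ha
  have ha0 : 0 ≤ a := Ex_nonneg fun _ => abs_nonneg _
  have hb0 : 0 ≤ b := Ex_nonneg fun _ => sq_nonneg _
  have h1 : b ^ 2 ≤ a * Ex (fun x => |R x| ^ 3) := by
    have := Ex_mul_sq_le (fun x => Real.sqrt |R x|) (fun x => Real.sqrt |R x| ^ 3)
    have e1 : ∀ x, Real.sqrt |R x| * Real.sqrt |R x| ^ 3 = R x ^ 2 := by
      intro x
      have h := Real.sq_sqrt (abs_nonneg (R x))
      calc Real.sqrt |R x| * Real.sqrt |R x| ^ 3 = (Real.sqrt |R x| ^ 2) ^ 2 := by ring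
        _ = R x ^ 2 := by rw [h, sq_abs]
    have e2 : ∀ x, Real.sqrt |R x| ^ 2 = |R x| := fun x => Real.sq_sqrt (abs_nonneg (R x))
    have e3 : ∀ x, (Real.sqrt |R x| ^ 3) ^ 2 = |R x| ^ 3 := by
      intro x
      calc (Real.sqrt |R x| ^ 3) ^ 2 = (Real.sqrt |R x| ^ 2) ^ 3 := by ring
        _ = _ := by rw [e2]
    simp only [e1, e2, e3] at this
    exact this
  have h2 : Ex (fun x => |R x| ^ 3) ^ 2 ≤ b * Ex (fun x => R x ^ 4) := by
    have := Ex_mul_sq_le (fun x => |R x|) (fun x => |R x| ^ 2)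
    have e1 : ∀ x, |R x| * |R x| ^ 2 = |R x| ^ 3 := fun x => by ring
    have e2 : ∀ x, |R x| ^ 2 = R x ^ 2 := fun x => sq_abs _
    have e3 : ∀ x, (|R x| ^ 2) ^ 2 = R x ^ 4 := fun x => by rw [sq_abs]; ring
    simp only [e1, e3] at this
    simp only [e2] at this
    exact this
  have h3 : b ≤ K ^ 2 * a ^ 2 := by
    rcases hb0.eq_or_lt with h0 | hpos
    · rw [← h0]; positivity
    · set t := Ex (fun x => |R x| ^ 3) with ht
      have ht0 : 0 ≤ t := Ex_nonneg fun _ => by positivity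
      have h5 : t ^ 2 ≤ K ^ 2 * b ^ 3 := by
        calc t ^ 2 ≤ b * (K ^ 2 * b ^ 2) := h2.trans (mul_le_mul_of_nonneg_left h4 hb0)
          _ = _ := by ring
      have h6 : b ^ 4 ≤ a ^ 2 * t ^ 2 := by
        calc b ^ 4 = (b ^ 2) ^ 2 := by ring
          _ ≤ (a * t) ^ 2 := pow_le_pow_left₀ (by positivity) h1 2
          _ = _ := by ring
      have h7 : b ^ 3 * b ≤ b ^ 3 * (K ^ 2 * a ^ 2) := by
        calc b ^ 3 * b = b ^ 4 := by ring
          _ ≤ a ^ 2 * t ^ 2 := h6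
          _ ≤ a ^ 2 * (K ^ 2 * b ^ 3) := mul_le_mul_of_nonneg_left h5 (by positivity)
          _ = _ := by ring
      exact le_of_mul_le_mul_left h7 (by positivity)
  rw [← mul_pow] at h3
  exact Real.sqrt_le_iff.2 ⟨by positivity, h3⟩

/-- The derivative in terms of the monomials containing `l`. -/
lemma D_eq_ml (R : (ι → ℤˣ) → ℝ) (l : ι) (x : ι → ℤˣ) :
    D R l x = sg x l * ml (fun S => if l ∈ S then fc R S else 0) (sg x) := by
  rw [D_eq]
  unfold dl ml
  rw [Finset.mul_sum]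
  refine Finset.sum_congr rfl fun S _ => ?_
  beta_reduce
  split_ifs with h
  · rw [← Finset.mul_prod_erase S _ h]
    have := sg_mul_self x l
    calc fc R S * ∏ e ∈ S.erase l, sg x e
        = (sg x l * sg x l) * (fc R S * ∏ e ∈ S.erase l, sg x e) := by rw [this, one_mul]
      _ = _ := by ring
  · ring

/-- local flatness of the derivatives -/
lemma flat (m r : ℕ) (R : (ι → ℤˣ) → ℝ) (l : ι) (col : Finset ι → Fin (m + 1))
    (h0 : ∀ S, l ∈ S → fc R S ≠ 0 → col S = 0 → S.card ≤ r)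
    (hs : ∀ S₁ S₂ S₃ S₄, l ∈ S₁ → l ∈ S₂ → l ∈ S₃ → l ∈ S₄ →
      fc R S₁ ≠ 0 → fc R S₂ ≠ 0 → fc R S₃ ≠ 0 → fc R S₄ ≠ 0 →
      col S₁ ≠ 0 → col S₂ = col S₁ → col S₃ = col S₁ → col S₄ = col S₁ →
      S₁ ≠ S₂ → S₁ ≠ S₃ → S₁ ≠ S₄ → S₂ ≠ S₃ → S₂ ≠ S₄ → S₃ ≠ S₄ →
      symmDiff S₁ S₂ ≠ symmDiff S₃ S₄) :
    Real.sqrt (Inf R l) ≤ (3 ^ r + 2 * m) * Ex (fun x => |D R l x|) := by
  have e2 : ∀ x : ι → ℤˣ, D R l x ^ 2 = ml (fun S => if l ∈ S then fc R S else 0) (sg x) ^ 2 := by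
    intro x
    rw [D_eq_ml, mul_pow, sq (sg x l), sg_mul_self, one_mul]
  have e3 : ∀ x : ι → ℤˣ, |D R l x| = |ml (fun S => if l ∈ S then fc R S else 0) (sg x)| := by
    intro x
    rw [D_eq_ml, abs_mul]
    have : |sg x l| = 1 := by rcases sg_cases x l with h | h <;> rw [h] <;> norm_num
    rw [this, one_mul]
  unfold Inf
  rw [Ex_congr e2, Ex_congr e3]
  refine l2_le_l1_of_four _ _ (by positivity) ?_
  have hmem : ∀ S, (if l ∈ S then fc R S else 0) ≠ 0 → l ∈ S ∧ fc R S ≠ 0 := by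
    intro S hS
    split_ifs at hS with h
    · exact ⟨h, hS⟩
    · exact absurd rfl hS
  refine col_four m r _ col ?_ ?_
  · intro S hS hc
    obtain ⟨h1, h2⟩ := hmem S hS
    exact h0 S h1 h2 hc
  · intro S₁ S₂ S₃ S₄ h1 h2 h3 h4
    obtain ⟨a1, b1⟩ := hmem S₁ h1
    obtain ⟨a2, b2⟩ := hmem S₂ h2
    obtain ⟨a3, b3⟩ := hmem S₃ h3
    obtain ⟨a4, b4⟩ := hmem S₄ h4
    exact hs S₁ S₂ S₃ S₄ a1 a2 a3 a4 b1 b2 b3 b4

/-- The pointwise bound for the sum of the derivatives. -/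
lemma sum_D_le (e : ℕ) (R : (ι → ℤˣ) → ℝ) (hr : ∀ S : Finset ι, e < S.card → fc R S = 0)
    (Λ : ℝ) (hΛ : ∀ x, |R x| ≤ Λ) (x : ι → ℤˣ) : ∑ l, |D R l x| ≤ 2 * (e : ℝ) ^ 2 * Λ := by
  have hm := fun A => markov_pt (fc R) e hr Λ (fun y hy => by
    obtain ⟨u, rfl⟩ := exists_sg y hy
    rw [ml_fc]; exact hΛ u) (sg x) (sg_isSgn x) A
  have m1 := hm (Finset.univ.filter fun l => 0 ≤ sg x l * dl (fc R) l (sg x))
  have m2 := hm (Finset.univ.filter fun l => ¬ 0 ≤ sg x l * dl (fc R) l (sg x))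
  have e3 : ∀ l, |D R l x| = |sg x l * dl (fc R) l (sg x)| := by
    intro l
    rw [D_eq, abs_mul]
    have : |sg x l| = 1 := by rcases sg_cases x l with h | h <;> rw [h] <;> norm_num
    rw [this, one_mul]
  simp_rw [e3]
  rw [← Finset.sum_filter_add_sum_filter_not Finset.univ
    (fun l => 0 ≤ sg x l * dl (fc R) l (sg x))]
  rw [Finset.sum_congr rfl (fun l hl => abs_of_nonneg (Finset.mem_filter.1 hl).2),
    Finset.sum_congr (s₁ := Finset.univ.filter fun l => ¬ 0 ≤ sg x l * dl (fc R) l (sg x)) rfl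
    (fun l hl => abs_of_neg (not_le.1 (Finset.mem_filter.1 hl).2)),
    Finset.sum_neg_distrib]
  have n1 := (le_abs_self _).trans m1
  have n2 := (neg_le_abs _).trans m2
  linarith

/-- The covariance in terms of the influences. -/
lemma Cov_le_sum (R h : (ι → ℤˣ) → ℝ) :
    |Cov R h| ≤ ∑ l, Real.sqrt (Inf R l) * Real.sqrt (Inf h l) := by
  have h1 : |Cov R h| ≤ ∑ S ∈ (Finset.univ : Finset (Finset ι)).erase ∅, |fc R S| * |fc h S| := by
    rw [Cov_eq]
    refine (Finset.abs_sum_le_sum_abs _ _).trans_eq ?_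
    exact Finset.sum_congr rfl fun S _ => abs_mul _ _
  refine h1.trans ?_
  have h2 : ∑ S ∈ (Finset.univ : Finset (Finset ι)).erase ∅, |fc R S| * |fc h S| ≤
      ∑ S : Finset ι, ∑ l, if l ∈ S then |fc R S| * |fc h S| else 0 := by
    rw [← Finset.add_sum_erase Finset.univ (fun S : Finset ι => ∑ l, if l ∈ S then
      |fc R S| * |fc h S| else 0) (Finset.mem_univ ∅)]
    simp only [Finset.notMem_empty, if_false, Finset.sum_const_zero, zero_add]
    refine Finset.sum_le_sum fun S hS => ?_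
    obtain ⟨l, hl⟩ := Finset.nonempty_iff_ne_empty.2 (Finset.ne_of_mem_erase hS)
    have hnn : ∀ l' ∈ (Finset.univ : Finset ι),
        (0 : ℝ) ≤ if l' ∈ S then |fc R S| * |fc h S| else 0 := by
      intro l' _
      split_ifs <;> positivity
    have := Finset.single_le_sum hnn (Finset.mem_univ l)
    rwa [if_pos hl] at this
  refine h2.trans ?_
  rw [Finset.sum_comm]
  refine Finset.sum_le_sum fun l _ => ?_
  rw [← Real.sqrt_mul (Inf_nonneg R l)]
  apply Real.le_sqrt_of_sq_le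
  rw [Inf_eq, Inf_eq]
  have := Finset.sum_mul_sq_le_sq_mul_sq (Finset.univ : Finset (Finset ι))
    (fun S => if l ∈ S then |fc R S| else 0) (fun S => if l ∈ S then |fc h S| else 0)
  have e1 : ∀ S : Finset ι, (if l ∈ S then |fc R S| else 0) * (if l ∈ S then |fc h S| else 0)
      = if l ∈ S then |fc R S| * |fc h S| else 0 := by
    intro S; split_ifs <;> simp
  have e2 : ∀ (g : (ι → ℤˣ) → ℝ) (S : Finset ι), (if l ∈ S then |fc g S| else 0) ^ 2
      = if l ∈ S then fc g S ^ 2 else 0 := by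
    intro g S; split_ifs
    · rw [sq_abs]
    · simp
  simp only [e1, e2] at this
  exact this

/-- Main estimate: the covariance with a bounded, locally flat function. -/
theorem Cov_flat (e : ℕ) (K Λ : ℝ) (hK : 0 ≤ K) (R h : (ι → ℤˣ) → ℝ)
    (hr : ∀ S : Finset ι, e < S.card → fc R S = 0) (hΛ : ∀ x, |R x| ≤ Λ)
    (hflat : ∀ l, Real.sqrt (Inf R l) ≤ K * Ex (fun x => |D R l x|))
    (M : ℝ) (hM : ∀ l, Real.sqrt (Inf h l) ≤ M) (hM0 : 0 ≤ M) :
    |Cov R h| ≤ 2 * K * (e : ℝ) ^ 2 * Λ * M := by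
  refine (Cov_le_sum R h).trans ?_
  calc ∑ l, Real.sqrt (Inf R l) * Real.sqrt (Inf h l)
      ≤ ∑ l, (K * Ex (fun x => |D R l x|)) * M := by
        refine Finset.sum_le_sum fun l _ => ?_
        exact mul_le_mul (hflat l) (hM l) (Real.sqrt_nonneg _)
          (mul_nonneg hK (Ex_nonneg fun _ => abs_nonneg _))
    _ = K * Ex (fun x => ∑ l, |D R l x|) * M := by
        rw [Ex_sum, Finset.mul_sum, Finset.sum_mul]
    _ ≤ K * (2 * (e : ℝ) ^ 2 * Λ) * M := by
        refine mul_le_mul_of_nonneg_right ?_ hM0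
        exact mul_le_mul_of_nonneg_left (Ex_le_const (sum_D_le e R hr Λ hΛ)) hK
    _ = _ := by ring

/-- Robust form. -/
theorem robust (e : ℕ) (K Λ : ℝ) (hK : 0 ≤ K) (R f : (ι → ℤˣ) → ℝ)
    (hr : ∀ S : Finset ι, e < S.card → fc R S = 0) (hΛ : ∀ x, |R x| ≤ Λ)
    (hflat : ∀ l, Real.sqrt (Inf R l) ≤ K * Ex (fun x => |D R l x|))
    (hclose : Ex (fun x => (f x - R x) ^ 2) ≤ Cov f f / 2)
    (M : ℝ) (hM : ∀ l, Real.sqrt (Inf f l) ≤ M) (hM0 : 0 ≤ M) :
    Cov f f ≤ 8 * K * (e : ℝ) ^ 2 * Λ * M := by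
  have h1 := Cov_flat e K Λ hK R f hr hΛ hflat M hM hM0
  have h2 : Cov f f = Cov R f + Ex (fun x => (f x - R x) * (f x - Ex f)) := by
    have e2 : ∀ x, (f x - R x) * (f x - Ex f)
        = (f x * f x - R x * f x) - (f x * Ex f - R x * Ex f) := by
      intro x; ring
    rw [Ex_congr e2, Ex_sub, Ex_sub, Ex_sub, Ex_mul_right, Ex_mul_right]
    unfold Cov; ring
  have h3 : Ex (fun x => (f x - R x) * (f x - Ex f)) ≤ (Cov f f / 2 + Cov f f) / 2 := by
    have e1 : Ex (fun x => (f x - Ex f) ^ 2) = Cov f f := by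
      have e2 : ∀ x, (f x - Ex f) ^ 2 = f x * f x - (2 * Ex f) * f x + Ex f ^ 2 := by
        intro x; ring
      rw [Ex_congr e2, Ex_add, Ex_sub, Ex_mul_left, Ex_const]
      unfold Cov; ring
    have e3 : Ex (fun x => (f x - R x) * (f x - Ex f)) ≤
        Ex (fun x => (1 / 2 : ℝ) * ((f x - R x) ^ 2 + (f x - Ex f) ^ 2)) := by
      refine Ex_mono fun x => ?_
      nlinarith [sq_nonneg (f x - R x - (f x - Ex f))]
    rw [Ex_mul_left, Ex_add, e1] at e3
    linarith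
  have h4 := (le_abs_self _).trans h1
  linarith

end Pool.Agent.H161R5.AA
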