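import Mathlib
import Pool.Agent.H161R3.Upper

set_option autoImplicit false

/-! Chevalley-Warning on sums of shifted blocks. -/

namespace Pool.Agent.H161R5

open MvPolynomial

/-- digits in base `B` of a sum of blocks -/
theorem dig_sum {B : ℕ} (hB : 0 < B) (U : ℕ) (β : ℕ → ℕ) (hβ : ∀ u, β u < B) (u₀ : ℕ) :
    (∑ u ∈ Finset.range U, β u * B ^ u) / B ^ u₀ % B = if u₀ < U then β u₀ else 0 := by
  induction u₀ generalizing U β with
  | zero =>
    rcases U with _ | U
    · simp
    · rw [Finset.sum_range_succ']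
      have : ∑ k ∈ Finset.range U, β (k + 1) * B ^ (k + 1) =
          B * ∑ k ∈ Finset.range U, β (k + 1) * B ^ k := by
        rw [Finset.mul_sum]
        exact Finset.sum_congr rfl fun i _ => by rw [pow_succ]; ring
      rw [this]
      simp only [pow_zero, mul_one, Nat.div_one]
      rw [add_comm, Nat.add_mul_mod_self_left, Nat.mod_eq_of_lt (hβ 0)]
      simp
  | succ n ih =>
    rcases U with _ | U
    · simp
    · rw [Finset.sum_range_succ']
      have : ∑ k ∈ Finset.range U, β (k + 1) * B ^ (k + 1) =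
          B * ∑ k ∈ Finset.range U, β (k + 1) * B ^ k := by
        rw [Finset.mul_sum]
        exact Finset.sum_congr rfl fun i _ => by rw [pow_succ]; ring
      rw [this, pow_succ', ← Nat.div_div_eq_div_mul]
      simp only [pow_zero, mul_one]
      rw [add_comm, Nat.add_mul_div_left _ _ hB, Nat.div_eq_of_lt (hβ 0), zero_add,
        ih U (fun u => β (u + 1)) (fun u => hβ _)]
      simp

/-- base `p` digits from base `p^L` digits -/
theorem dig_fine {p L : ℕ} (hp : 0 < p) (N u v : ℕ) (hv : v < L) :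
    N / p ^ (L * u + v) % p = (N / (p ^ L) ^ u % p ^ L) / p ^ v % p := by
  rw [pow_add, pow_mul, ← Nat.div_div_eq_div_mul]
  set X := N / (p ^ L) ^ u
  obtain ⟨r, rfl⟩ : ∃ r, L = v + 1 + r := ⟨L - (v + 1), by omega⟩
  have h := Nat.div_add_mod X (p ^ (v + 1 + r))
  set Y := X % p ^ (v + 1 + r)
  set q := X / p ^ (v + 1 + r)
  have hX : X = Y + p ^ v * (p * (p ^ r * q)) := by
    rw [← h]
    rw [pow_add, pow_succ]
    ring
  conv_lhs => rw [hX]
  rw [Nat.add_mul_div_left _ _ (by positivity), Nat.add_mul_mod_self_left]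

variable {p : ℕ} [Fact p.Prime]

/-- digit vector -/
def dv (p M n : ℕ) : Fin M → ZMod p := fun i => ((n / p ^ (i : ℕ) % p : ℕ) : ZMod p)

/-- the digit of `b * ∑ [t_i ≠ 0] p^(L(r+i))` as a polynomial in `t` -/
noncomputable def Qd (p L r q M b : ℕ) (l : Fin M) : MvPolynomial (Fin q) (ZMod p) :=
  if h : r ≤ (l : ℕ) / L ∧ (l : ℕ) / L - r < q then
    C ((b / p ^ ((l : ℕ) % L) % p : ℕ) : ZMod p) * X ⟨(l : ℕ) / L - r, h.2⟩ ^ (p - 1)
  else 0

theorem Qd_deg (L r q M b : ℕ) (l : Fin M) : (Qd p L r q M b l).totalDegree ≤ p - 1 := by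
  have hp : p.Prime := Fact.out
  unfold Qd
  split_ifs with h
  · refine (totalDegree_mul _ _).trans ?_
    rw [totalDegree_C, zero_add]
    refine (totalDegree_pow _ _).trans ?_
    rw [totalDegree_X, mul_one]
  · simp

/-- the 0-1 sequence attached to `t` -/
def ee (r q : ℕ) (t : Fin q → ZMod p) (u : ℕ) : ℕ :=
  if h : r ≤ u ∧ u - r < q then (if t ⟨u - r, h.2⟩ = 0 then 0 else 1) else 0

theorem ee_le (r q : ℕ) (t : Fin q → ZMod p) (u : ℕ) : ee r q t u ≤ 1 := by
  unfold ee
  split_ifs <;> omega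

theorem eval_Qd {L : ℕ} (hL : 0 < L) (r q M b : ℕ) (hb : b < p ^ L) (t : Fin q → ZMod p)
    (l : Fin M) :
    eval t (Qd p L r q M b l) =
      dv p M (b * ∑ u ∈ Finset.range (r + q), ee r q t u * p ^ (L * u)) l := by
  have hp : p.Prime := Fact.out
  have hpos : 0 < p := hp.pos
  unfold dv
  have hl : (l : ℕ) = L * ((l : ℕ) / L) + (l : ℕ) % L := (Nat.div_add_mod _ _).symm
  have hs : b * ∑ u ∈ Finset.range (r + q), ee r q t u * p ^ (L * u) =
      ∑ u ∈ Finset.range (r + q), (b * ee r q t u) * (p ^ L) ^ u := by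
    rw [Finset.mul_sum]
    exact Finset.sum_congr rfl fun i _ => by rw [pow_mul]; ring
  have hβ : ∀ u, b * ee r q t u < p ^ L := by
    intro u
    calc b * ee r q t u ≤ b * 1 := Nat.mul_le_mul_left _ (ee_le r q t u)
      _ < _ := by omega
  have hd : (b * ∑ u ∈ Finset.range (r + q), ee r q t u * p ^ (L * u)) / p ^ (l : ℕ) % p =
      (if (l : ℕ) / L < r + q then b * ee r q t ((l : ℕ) / L) else 0) / p ^ ((l : ℕ) % L) % p := by
    rw [hs]
    conv_lhs => rw [hl]
    rw [dig_fine hpos _ _ _ (Nat.mod_lt _ hL), dig_sum (by positivity) _ _ hβ]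
  rw [hd]
  unfold Qd ee
  by_cases h : r ≤ (l : ℕ) / L ∧ (l : ℕ) / L - r < q
  · rw [dif_pos h, dif_pos h, if_pos (by omega)]
    simp only [map_mul, eval_C, map_pow, eval_X]
    by_cases ht : t ⟨(l : ℕ) / L - r, h.2⟩ = 0
    · rw [if_pos ht, ht, zero_pow (by have := hp.two_le; omega)]
      simp
    · rw [if_neg ht, ZMod.pow_card_sub_one_eq_one ht]
      simp
  · rw [dif_neg h, dif_neg h]
    simp

/-- substitution of polynomials of degree `≤ e` multiplies the total degree by at most `e` -/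
theorem totalDegree_bind₁_le' {σ τ R : Type} [CommRing R] (f : σ → MvPolynomial τ R) (e : ℕ)
    (hf : ∀ i, (f i).totalDegree ≤ e) (P : MvPolynomial σ R) :
    (bind₁ f P).totalDegree ≤ P.totalDegree * e := by
  classical
  have h : bind₁ f P = ∑ d ∈ P.support, C (P.coeff d) * ∏ i ∈ d.support, f i ^ d i := by
    rw [bind₁, aeval_def, eval₂_eq]
    rfl
  rw [h]
  refine totalDegree_finsetSum_le fun d hd => ?_
  refine (totalDegree_mul _ _).trans ?_
  rw [totalDegree_C, zero_add]
  refine (totalDegree_finsetProd _ _).trans ?_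
  refine le_trans ?_ (Nat.mul_le_mul_right e (le_totalDegree hd))
  rw [Finsupp.sum, Finset.sum_mul]
  refine Finset.sum_le_sum fun i _ => ?_
  refine (totalDegree_pow _ _).trans ?_
  exact Nat.mul_le_mul_left _ (hf i)

/-- **Low degree part.** -/
theorem deg_part {L : ℕ} (hL : 0 < L) {κ : ℕ} (b : Fin κ → ℕ) (hb : ∀ j, b j < p ^ L)
    {M s D r q : ℕ} (P : Fin s → MvPolynomial (Fin M) (ZMod p)) (hP : ∀ j, (P j).totalDegree ≤ D)
    (hq : κ * s * (D * (p - 1)) < q) :
    ∃ t : Fin q → ZMod p, (∃ i, t i ≠ 0) ∧ ∀ a j,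
      eval (dv p M (b a * ∑ u ∈ Finset.range (r + q), ee r q t u * p ^ (L * u))) (P j) =
        eval 0 (P j) := by
  classical
  have hp : p.Prime := Fact.out
  let f : Fin κ × Fin s → MvPolynomial (Fin q) (ZMod p) := fun a =>
    bind₁ (Qd p L r q M (b a.1)) (P a.2) - C (eval 0 (P a.2))
  have hdeg : ∀ a, (f a).totalDegree ≤ D * (p - 1) := by
    intro a
    refine (totalDegree_sub _ _).trans ?_
    rw [totalDegree_C]
    refine max_le ?_ (Nat.zero_le _)
    refine (totalDegree_bind₁_le' _ (p - 1) (fun l => Qd_deg _ _ _ _ _ _) _).trans ?_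
    exact Nat.mul_le_mul_right _ (hP _)
  have hev : ∀ t a, eval t (f a) =
      eval (dv p M (b a.1 * ∑ u ∈ Finset.range (r + q), ee r q t u * p ^ (L * u))) (P a.2) -
        eval 0 (P a.2) := by
    intro t a
    simp only [f, map_sub, eval_C]
    congr 1
    have h1 := eval₂Hom_bind₁ (RingHom.id (ZMod p)) t (Qd p L r q M (b a.1)) (P a.2)
    have h2 : (fun z => (eval₂Hom (RingHom.id (ZMod p)) t) (Qd p L r q M (b a.1) z)) =
        dv p M (b a.1 * ∑ u ∈ Finset.range (r + q), ee r q t u * p ^ (L * u)) := by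
      funext z
      exact eval_Qd hL r q M (b a.1) (hb _) t z
    rw [h2] at h1
    exact h1
  have hsum : (∑ a, (f a).totalDegree) < Fintype.card (Fin q) := by
    rw [Fintype.card_fin]
    refine lt_of_le_of_lt (Finset.sum_le_card_nsmul _ _ (D * (p - 1)) fun a _ => hdeg a) ?_
    rw [Finset.card_univ, Fintype.card_prod, Fintype.card_fin, Fintype.card_fin, smul_eq_mul]
    exact hq
  have hdvd := char_dvd_card_solutions_of_fintype_sum_lt p hsum
  -- the zero solution
  have hee0 : ∀ u, ee r q (0 : Fin q → ZMod p) u = 0 := by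
    intro u
    unfold ee
    split_ifs <;> simp_all
  have h0 : ∀ a, eval (0 : Fin q → ZMod p) (f a) = 0 := by
    intro a
    rw [hev]
    have : dv p M (b a.1 * ∑ u ∈ Finset.range (r + q),
        ee r q (0 : Fin q → ZMod p) u * p ^ (L * u)) = 0 := by
      simp only [hee0]
      funext l
      simp [dv]
    rw [this, sub_self]
  have hcard : 1 < Fintype.card {x : Fin q → ZMod p // ∀ i, eval x (f i) = 0} := by
    have hpos : 0 < Fintype.card {x : Fin q → ZMod p // ∀ i, eval x (f i) = 0} :=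
      Fintype.card_pos_iff.2 ⟨⟨0, h0⟩⟩
    exact lt_of_lt_of_le hp.one_lt (Nat.le_of_dvd hpos hdvd)
  obtain ⟨⟨t, ht⟩, hne⟩ := Fintype.exists_ne_of_one_lt_card hcard ⟨0, h0⟩
  refine ⟨t, ?_, fun a j => ?_⟩
  · by_contra hno
    push Not at hno
    exact hne (Subtype.ext (funext hno))
  · have := ht (a, j)
    rw [hev] at this
    exact sub_eq_zero.1 this

end Pool.Agent.H161R5
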