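import Mathlib
import Pool.Agent.H161R5.PyDeg

set_option autoImplicit false

/-! Chevalley-Warning on `s + b n`. -/

namespace Pool.Agent.H161R5

open MvPolynomial

variable {p : ℕ} [Fact p.Prime]

theorem dv_add {L r M s N : ℕ} (hs : s < p ^ (L * r)) (hN : p ^ (L * r) ∣ N) (l : Fin M) :
    dv p M (s + N) l = dv p M s l + dv p M N l := by
  have hp : p.Prime := Fact.out
  obtain ⟨N', rfl⟩ := hN
  unfold dv
  rw [← Nat.cast_add]
  congr 1
  rcases lt_or_ge (l : ℕ) (L * r) with h | h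
  · obtain ⟨k, hk⟩ : ∃ k, L * r = (l : ℕ) + 1 + k := ⟨L * r - ((l : ℕ) + 1), by omega⟩
    have h1 : p ^ (L * r) * N' = p ^ (l : ℕ) * (p * (p ^ k * N')) := by
      rw [hk, pow_add, pow_succ]; ring
    have h2 : p ^ (L * r) * N' / p ^ (l : ℕ) % p = 0 := by
      rw [h1, Nat.mul_div_cancel_left _ (pow_pos hp.pos _), Nat.mul_mod_right]
    rw [h2, add_zero]
    rw [h1, Nat.add_mul_div_left _ _ (pow_pos hp.pos _), Nat.add_mul_mod_self_left]
  · obtain ⟨k, hk⟩ : ∃ k, (l : ℕ) = L * r + k := ⟨(l : ℕ) - L * r, by omega⟩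
    have h2 : s / p ^ (l : ℕ) = 0 := by
      rw [hk, pow_add, ← Nat.div_div_eq_div_mul, Nat.div_eq_of_lt hs, Nat.zero_div]
    have h3 : (s + p ^ (L * r) * N') / p ^ (l : ℕ) = p ^ (L * r) * N' / p ^ (l : ℕ) := by
      rw [hk, pow_add, ← Nat.div_div_eq_div_mul, ← Nat.div_div_eq_div_mul,
        Nat.add_mul_div_left _ _ (pow_pos hp.pos _), Nat.div_eq_of_lt hs, zero_add,
        Nat.mul_div_cancel_left _ (pow_pos hp.pos _)]
    rw [h2, h3, Nat.zero_mod, zero_add]

/-- **Low degree part with translations.** -/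
theorem deg_part2 {L : ℕ} (hL : 0 < L) {ι : Type} [Fintype ι] (a b : ι → ℕ)
    {M s D r q : ℕ} (ha : ∀ j, a j < p ^ (L * r)) (hb : ∀ j, b j < p ^ L)
    (P : Fin s → MvPolynomial (Fin M) (ZMod p)) (hP : ∀ j, (P j).totalDegree ≤ D)
    (hq : Fintype.card ι * s * (D * (p - 1)) < q) :
    ∃ t : Fin q → ZMod p, (∃ i, t i ≠ 0) ∧ ∀ k j,
      eval (dv p M (a k + b k * ∑ u ∈ Finset.range (r + q), ee r q t u * p ^ (L * u))) (P j) =
        eval (dv p M (a k)) (P j) := by
  classical
  have hp : p.Prime := Fact.out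
  let f : ι × Fin s → MvPolynomial (Fin q) (ZMod p) := fun k =>
    bind₁ (fun l => C (dv p M (a k.1) l) + Qd p L r q M (b k.1) l) (P k.2) -
      C (eval (dv p M (a k.1)) (P k.2))
  have hdeg : ∀ k, (f k).totalDegree ≤ D * (p - 1) := by
    intro k
    refine (totalDegree_sub _ _).trans ?_
    rw [totalDegree_C]
    refine max_le ?_ (Nat.zero_le _)
    refine (totalDegree_bind₁_le' _ (p - 1) (fun l => ?_) _).trans ?_
    · have hQ := Qd_deg (p := p) L r q M (b k.1) l
      refine (totalDegree_add _ _).trans ?_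
      rw [totalDegree_C]
      exact max_le (Nat.zero_le _) hQ
    · exact Nat.mul_le_mul_right _ (hP _)
  have hdvd' : ∀ t : Fin q → ZMod p, p ^ (L * r) ∣ ∑ u ∈ Finset.range (r + q), ee r q t u * p ^ (L * u) := by
    intro t
    refine Finset.dvd_sum fun u _ => ?_
    by_cases h : r ≤ u
    · exact Dvd.dvd.mul_left (pow_dvd_pow _ (Nat.mul_le_mul_left _ h)) _
    · have : ee r q t u = 0 := by
        unfold ee
        rw [dif_neg (by omega)]
      rw [this, zero_mul]
      exact dvd_zero _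
  have hev : ∀ (t : Fin q → ZMod p) k, eval t (f k) =
      eval (dv p M (a k.1 + b k.1 * ∑ u ∈ Finset.range (r + q), ee r q t u * p ^ (L * u)))
        (P k.2) - eval (dv p M (a k.1)) (P k.2) := by
    intro t k
    simp only [f, map_sub, eval_C]
    congr 1
    have h1 := eval₂Hom_bind₁ (RingHom.id (ZMod p)) t
      (fun l => C (dv p M (a k.1) l) + Qd p L r q M (b k.1) l) (P k.2)
    have h2 : (fun z => (eval₂Hom (RingHom.id (ZMod p)) t)
        (C (dv p M (a k.1) z) + Qd p L r q M (b k.1) z)) =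
        dv p M (a k.1 + b k.1 * ∑ u ∈ Finset.range (r + q), ee r q t u * p ^ (L * u)) := by
      funext z
      rw [dv_add (ha k.1) (Dvd.dvd.mul_left (hdvd' t) _), ← eval_Qd hL r q M _ (hb _) t z]
      change eval t _ = _
      simp
    rw [h2] at h1
    exact h1
  have hsum : (∑ k, (f k).totalDegree) < Fintype.card (Fin q) := by
    rw [Fintype.card_fin]
    refine lt_of_le_of_lt (Finset.sum_le_card_nsmul _ _ (D * (p - 1)) fun k _ => hdeg k) ?_
    rw [Finset.card_univ, Fintype.card_prod, Fintype.card_fin, smul_eq_mul]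
    exact hq
  have hdvd := char_dvd_card_solutions_of_fintype_sum_lt p hsum
  have hee0 : ∀ u, ee r q (0 : Fin q → ZMod p) u = 0 := by
    intro u
    unfold ee
    split_ifs <;> simp_all
  have h0 : ∀ k, eval (0 : Fin q → ZMod p) (f k) = 0 := by
    intro k
    rw [hev]
    simp [hee0]
  have hcard : 1 < Fintype.card {x : Fin q → ZMod p // ∀ i, eval x (f i) = 0} := by
    have hpos : 0 < Fintype.card {x : Fin q → ZMod p // ∀ i, eval x (f i) = 0} :=
      Fintype.card_pos_iff.2 ⟨⟨0, h0⟩⟩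
    exact lt_of_lt_of_le hp.one_lt (Nat.le_of_dvd hpos hdvd)
  obtain ⟨⟨t, ht⟩, hne⟩ := Fintype.exists_ne_of_one_lt_card hcard ⟨0, h0⟩
  refine ⟨t, ?_, fun k j => ?_⟩
  · by_contra hno
    push Not at hno
    exact hne (Subtype.ext (funext hno))
  · have := ht (k, j)
    rw [hev] at this
    exact sub_eq_zero.1 this

/-- sublinear degree colourings -/
def Sublinear (p : ℕ) {α : Type*} (χ : ℕ → α) : Prop :=
  ∀ ε : ℝ, 0 < ε → ∀ M₀ : ℕ, ∃ M s D : ℕ, M₀ ≤ M ∧ (s * D : ℝ) ≤ ε * M ∧
      ∃ P : Fin s → MvPolynomial (Fin M) (ZMod p), (∀ j, (P j).totalDegree ≤ D) ∧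
        ∀ m n : ℕ, m < p ^ M → n < p ^ M →
          (∀ j, eval (fun i : Fin M => ((m / p ^ (i : ℕ) % p : ℕ) : ZMod p)) (P j) =
            eval (fun i : Fin M => ((n / p ^ (i : ℕ) % p : ℕ) : ZMod p)) (P j)) →
          χ m = χ n

theorem exists_next {α : Type*} {χ : ℕ → α} (h : Sublinear p χ) (S : List ℕ) (n Y : ℕ) :
    ∃ y, Y < y ∧ ∀ s ∈ S, ∀ b < n + 2, χ (s + b * y) = χ s := by
  classical
  have hp : p.Prime := Fact.out
  have hp2 := hp.two_le
  set L := n + 2 with hL
  set r := S.sum + Y + 1 with hr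
  set κ := S.length * (n + 2) with hκ
  have hbig : ∀ m, m < r → m < p ^ (L * r) := by
    intro m hm
    calc m < p ^ m := Nat.lt_pow_self hp2
      _ ≤ _ := Nat.pow_le_pow_right hp.pos (by rw [hL]; nlinarith)
  have hSr : ∀ s ∈ S, s < r := by
    intro s hs
    have := List.single_le_sum (fun x _ => Nat.zero_le x) s hs
    omega
  obtain ⟨M, s, D, hM, hsD, P, hP, hχ⟩ := h (1 / (2 * L * (κ + 1) * p)) (by positivity)
    (2 * L * (r + 1))
  set q := κ * s * (D * (p - 1)) + 1 with hq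
  have hlen : L * (r + q) ≤ M := by
    have h1 : (s * D : ℝ) * (2 * L * (κ + 1) * p) ≤ M := by
      have hpos : (0 : ℝ) < 2 * L * (κ + 1) * p := by positivity
      calc (s * D : ℝ) * (2 * L * (κ + 1) * p) ≤
          1 / (2 * L * (κ + 1) * p) * M * (2 * L * (κ + 1) * p) := by gcongr
        _ = M := by
          have hLr : (L : ℝ) ≠ 0 := by rw [hL]; positivity
          have hpr : (p : ℝ) ≠ 0 := by exact_mod_cast hp.ne_zero
          field_simp
    have h2 : s * D * (2 * L * (κ + 1) * p) ≤ M := by exact_mod_cast h1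
    have h3 : 2 * (L * (κ * s * (D * (p - 1)))) ≤ M := by
      refine le_trans ?_ h2
      calc 2 * (L * (κ * s * (D * (p - 1)))) = s * D * (2 * L * κ * (p - 1)) := by ring
        _ ≤ _ := Nat.mul_le_mul_left _ (Nat.mul_le_mul (Nat.mul_le_mul_left _ (by omega))
            (Nat.sub_le _ _))
    have h4 : 2 * (L * (r + q)) = 2 * L * (r + 1) + 2 * (L * (κ * s * (D * (p - 1)))) := by
      rw [hq]; ring
    omega
  obtain ⟨t, ⟨i, hi⟩, ht⟩ := deg_part2 (p := p) (L := L) (by omega)
    (ι := Fin S.length × Fin (n + 2)) (fun k => S.get k.1) (fun k => k.2)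
    (M := M) (r := r) (q := q) (fun k => hbig _ (hSr _ (List.get_mem _ _)))
    (fun k => lt_of_lt_of_le k.2.2 (Nat.lt_pow_self hp2).le) P hP
    (by rw [hq]; simp only [Fintype.card_prod, Fintype.card_fin]; rw [← hκ]; omega)
  set y := ∑ u ∈ Finset.range (r + q), ee r q t u * p ^ (L * u) with hy
  have hei : ee r q t (r + i) = 1 := by
    unfold ee
    have h1 : r ≤ r + (i : ℕ) ∧ r + (i : ℕ) - r < q := ⟨by omega, by
      rw [Nat.add_sub_cancel_left]; exact i.2⟩
    rw [dif_pos h1]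
    have h2 : (⟨r + (i : ℕ) - r, h1.2⟩ : Fin q) = i := by
      apply Fin.ext
      simp
    rw [h2, if_neg hi]
  have hYy : Y < y := by
    have h1 : ee r q t (r + i) * p ^ (L * (r + i)) ≤ y := by
      rw [hy]
      exact Finset.single_le_sum (f := fun u => ee r q t u * p ^ (L * u))
        (fun u _ => Nat.zero_le _) (Finset.mem_range.2 (by have := i.2; omega))
    rw [hei, one_mul] at h1
    have h2 : Y < p ^ (L * r) := hbig Y (by omega)
    have h3 : p ^ (L * r) ≤ p ^ (L * (r + i)) :=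
      Nat.pow_le_pow_right hp.pos (Nat.mul_le_mul_left _ (by omega))
    omega
  have hlt : ∀ a b, a < p ^ (L * r) → b < p ^ L → a + b * y < p ^ M := by
    intro a b ha hb'
    refine lt_of_lt_of_le ?_ (Nat.pow_le_pow_right hp.pos hlen)
    have key : ∀ N, b * ∑ u ∈ Finset.range (r + N), ee r q t u * p ^ (L * u) + p ^ (L * r)
        ≤ p ^ (L * (r + N)) := by
      intro N
      induction N with
      | zero =>
        have : ∑ u ∈ Finset.range (r + 0), ee r q t u * p ^ (L * u) = 0 := by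
          refine Finset.sum_eq_zero fun u hu => ?_
          have hu' := Finset.mem_range.1 hu
          unfold ee
          rw [dif_neg (by omega), zero_mul]
        rw [this, mul_zero, zero_add, add_zero]
      | succ N ih =>
        rw [← add_assoc, Finset.sum_range_succ, mul_add]
        have h1 : b * (ee r q t (r + N) * p ^ (L * (r + N))) ≤ b * p ^ (L * (r + N)) := by
          refine Nat.mul_le_mul_left _ ?_
          calc ee r q t (r + N) * p ^ (L * (r + N)) ≤ 1 * p ^ (L * (r + N)) :=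
                Nat.mul_le_mul_right _ (ee_le _ _ _ _)
            _ = _ := one_mul _
        calc b * ∑ u ∈ Finset.range (r + N), ee r q t u * p ^ (L * u) +
              b * (ee r q t (r + N) * p ^ (L * (r + N))) + p ^ (L * r)
            ≤ p ^ (L * (r + N)) + b * p ^ (L * (r + N)) := by omega
          _ = (b + 1) * p ^ (L * (r + N)) := by ring
          _ ≤ p ^ L * p ^ (L * (r + N)) := Nat.mul_le_mul_right _ hb'
          _ = p ^ (L * (r + N + 1)) := by rw [← pow_add]; ring_nf
    have := key q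
    rw [← hy] at this
    omega
  refine ⟨y, hYy, fun s' hs' b hb' => ?_⟩
  obtain ⟨k, rfl⟩ := List.get_of_mem hs'
  have hb2 : b < p ^ L := lt_of_lt_of_le hb' (Nat.lt_pow_self hp2).le
  have ha2 := hbig _ (hSr _ hs')
  refine hχ _ _ (hlt _ _ ha2 hb2) ?_ fun j => ht (k, ⟨b, hb'⟩) j
  have := hlt _ 0 ha2 (pow_pos hp.pos _)
  simpa using this

end Pool.Agent.H161R5
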